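import Pool.Agent.TH783.OV.Fin

set_option autoImplicit false

open Set MeasureTheory

/-!
# Vaught's conjecture for ordered modules over countable subrings of the real numbers

Let `T` be a countable set of real numbers and let `K` be the ring generated by `T`.  A point `x` of
the space `XT T` is a structure with universe `ℕ`: a binary relation `<`, a binary operation `+` and
a unary operation for every `t ∈ T` (multiplication by `t`).  We consider ordered modules over `K`:
linearly ordered abelian groups which are `K`-modules and on which positive scalars preserve the
order; for `T = ∅` these are the ordered abelian groups, for a countable field `K` the ordered vector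
spaces over `K`.

Every isomorphism invariant Borel class of countable ordered modules, each of which is divisible or
a sum (not necessarily direct in advance) of submodules attached to its archimedean classes, has
countably many isomorphism types or a perfect set of pairwise non-isomorphic members.  In particular
this is true of the models of an arbitrary theory, or of a sentence of `L_(ω₁ω)`, whose countable
models are divisible ordered modules with additional properties expressed by the order, the addition
and the scalars.
-/

namespace Pool.Agent.Results.MP_5df2c5_lc.OrderedModules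

open Pool.Agent.TH783.OV

/-- **Vaught's conjecture (perfect set form) for Borel classes of ordered modules** which are
divisible or lexicographic sums of archimedean submodules. -/
theorem result (T : Set ℝ) (hT : T.Countable) (B : Set (XT T)) (hB : MeasurableSet B)
    (hinv : ∀ x ∈ B, ∀ y, IsoX x y → y ∈ B)
    (hmod : ∀ x ∈ B, ∃ (V : Type) (_ : AddCommGroup V) (_ : LinearOrder V)
      (_ : IsOrderedAddMonoid V) (_ : Module (Subring.closure T) V) (e : ℕ ≃ V),
      (∀ (s : Subring.closure T) (v : V), 0 < s → 0 < v → 0 < s • v) ∧
      (∀ m n, x.1 m n = true ↔ e m < e n) ∧ (∀ m n, e (x.2.1 m n) = e m + e n) ∧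
      (∀ (t : T) (m : ℕ), e (x.2.2 t m) = sc t • e m) ∧
      ((∀ (s : Subring.closure T) (v : V), s ≠ 0 → ∃ w : V, s • w = v) ∨
        ∃ A : ArchimedeanClass V → Submodule (Subring.closure T) V,
          (∀ γ, ∀ v ∈ A γ, v ≠ 0 → ArchimedeanClass.mk v = γ) ∧ ⨆ γ, A γ = ⊤)) :
    (∃ f : ℕ → XT T, ∀ x ∈ B, ∃ n, IsoX (f n) x) ∨
    (∃ g : (ℕ → Bool) → XT T, Continuous g ∧ (∀ c, g c ∈ B) ∧
      ∀ c d, IsoX (g c) (g d) → c = d) := by
  have : Countable T := hT.to_subtype
  refine main B hB hinv fun x hx => ?_
  obtain ⟨V, i1, i2, i3, i4, e, h1, h2, h3, h4, h5⟩ := hmod x hx
  exact ⟨V, i1, i2, i3, i4, e, h1, ⟨h2, h3, h4⟩, h5⟩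

end Pool.Agent.Results.MP_5df2c5_lc.OrderedModules
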